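import Pool.Agent.MP_48470b_gt.Gap.Cnt
import Pool.Agent.MP_48470b_gt.Gap.Run.C0
import Pool.Agent.MP_48470b_gt.Gap.Run.C1
import Pool.Agent.MP_48470b_gt.Gap.Run.C2
import Pool.Agent.MP_48470b_gt.Gap.Run.C3
import Pool.Agent.MP_48470b_gt.Gap.Run.C4
import Pool.Agent.MP_48470b_gt.Gap.Run.C5
import Pool.Agent.MP_48470b_gt.Gap.Run.C6

/-! The eigenvalue count. -/

set_option autoImplicit false
set_option maxRecDepth 100000

namespace Pool.Agent.MP_48470b_gt.Gap.Run
open Mc

/-- break points -/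
def brk (i : ℕ) : ℕ := [0, 12, 34, 56, 78, 100, 122, 144, 166, 188, 210, 232, 254, 278, 302, 326, 350, 374, 398, 422, 446, 470, 492, 512].getD i 512

theorem grid : Grid 23 512 brk := ⟨rfl, rfl, by norm_num, by decide⟩

theorem count {bb : ℕ → P3 → ℝ} {vv : P3 → ℝ}
    (hc : ∀ i j k, i ≤ j → j ≤ k → k < 23 → CellOK 512 brk bb vv (cw i j k) i j k) :
    Count bb vv := by
  have hl := locOK grid (by norm_num) (H := HW) (by decide +kernel) 6 175030252489682372939218944 hc
  have he : 64 ≤ 142 := by norm_num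
  have hn : nc 23 23 ≤ 4000 := by decide +kernel
  have ec : cf0 = mkCf 147 (2 ^ 64) := by norm_num [cf0]
  have h0 : InvJ _ Om.w 147 64 23 (qC 512 brk 6 175030252489682372939218944 bb vv) 0 S0 := st0_inv (X := XF 23 512 brk) _
  have h1 := chunk_sound he hl hn (by norm_num) h0 (ec ▸ c0)
  have h2 := chunk_sound he hl hn (by norm_num) h1 (ec ▸ c1)
  have h3 := chunk_sound he hl hn (by norm_num) h2 (ec ▸ c2)
  have h4 := chunk_sound he hl hn (by norm_num) h3 (ec ▸ c3)
  have h5 := chunk_sound he hl hn (by norm_num) h4 (ec ▸ c4)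
  have h6 := chunk_sound he hl hn (by norm_num) h5 (ec ▸ c5)
  have h7 := chunk_sound he hl hn (by norm_num) h6 (ec ▸ c6.1)
  exact count_of_inv grid (by norm_num) he hn (by decide +kernel) h7 (ec ▸ c6.2)

end Pool.Agent.MP_48470b_gt.Gap.Run
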