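import Pool.Agent.MP_48470b_gt.Gap.RunX
import Pool.Agent.MP_48470b_gt.Gap.Run.CW

/-! Parameters of the run. -/

set_option autoImplicit false
set_option maxRecDepth 100000

namespace Pool.Agent.MP_48470b_gt.Gap.Run
open Mc

noncomputable def HW : ℕ → ℕ := nth [12, 22, 22, 22, 22, 22, 22, 22, 22, 22, 22, 22, 24, 24, 24, 24, 24, 24, 24, 24, 24, 22, 20]

noncomputable def lk : ℕ → ℕ → ℕ → ℕ → ((ℕ → ℕ → ℕ) → Bool) → Bool :=
  lkD 262144 6 175030252489682372939218950 cw HW

noncomputable def cf0 : Cf := mkCf 147 18446744073709551616

noncomputable def S0 : St := st0 147 0x5c0b5c0a580a540a5c095809540950094c095c085808540850084c08480844085c075807540750074c074807440740073c075c065806540650064c064806440640063c06380634065c055805540550054c054805440540053c053805340530052c055c045804540450044c044804440440043c043804340430042c04280424045c035803540350034c034803440340033c033803340330032c032803240320031c035c025802540250024c024802440240023c023802340230022c022802240220021c02180214025c015801540150014c014801440140013c013801340130012c012801240120011c011801140110010c0108025c005800540050004c004800440040003c003800340030002c002800240020001c001800140010000c000800040104000000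

end Pool.Agent.MP_48470b_gt.Gap.Run
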